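import Pool.Agent.Q216.Ulam.Defs

set_option autoImplicit false

/-!
There is no universal countable projective algebra of plane sets: every countable projective
algebra `U` omits (up to isomorphism) some projective algebra generated by one plane set.
-/

namespace Pool.Agent.Results.MP_3db952_lc.NoUniversal

open Pool.Agent.Q216.Ulam

/-- For every countable projective algebra `U` there is a countable projective algebra, even one
generated by a single plane set, that is not isomorphic to any subalgebra of `U`. -/
theorem result (U : Set (Set (ℝ × ℝ))) (hU : U.Countable) :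
    ∃ S : Set (ℝ × ℝ), IsProjAlg (generated {S}) ∧ (generated {S}).Countable ∧
      ¬ ∃ V ⊆ U, IsProjAlg V ∧ Isomorphic (generated {S}) V := by
  by_contra hcon
  push Not at hcon
  have hA : ∀ S : Set (ℝ × ℝ), IsProjAlg (generated {S}) := fun S => generated_isProjAlg _
  have hC : ∀ S : Set (ℝ × ℝ), (generated {S}).Countable := by
    intro S
    have := generated_countable (ι := Unit) (fun _ => S)
    rwa [Set.range_const] at this
  have hmem : ∀ S : Set (ℝ × ℝ), S ∈ generated {S} := fun S => subset_generated _ rfl
  have h1 : ∀ T : Set ℕ, ∃ u ∈ U, T = {n | test u n ≠ ∅} := by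
    intro T
    obtain ⟨V, hVU, -, φ, hφ⟩ := hcon (code T) (hA _) (hC _)
    exact ⟨φ (code T), hVU (hφ.bij.mapsTo (hmem _)), code_determined hφ (hA _) (hmem _)⟩
  have h2 : (Set.univ : Set (Set ℕ)).Countable := by
    apply (hU.image fun u => {n | test u n ≠ ∅}).mono
    intro T _
    obtain ⟨u, hu, hT⟩ := h1 T
    exact ⟨u, hu, hT.symm⟩
  have h3 : Countable (Set ℕ) := Set.countable_univ_iff.1 h2
  obtain ⟨f, hf⟩ := h3.exists_injective_nat
  exact Function.cantor_injective f hf

end Pool.Agent.Results.MP_3db952_lc.NoUniversal
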